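import Pool.Agent.Y234.EM.Stm

/-!
# Project EM: powers of the ideal of a monic map
-/

set_option autoImplicit false

namespace Pool.Agent.Y537.EM.QP

open Finset Pool.Agent.Y234.EM

/-- The expansion as a linear map. -/
noncomputable def T {R : Type} [CommRing R] {v : ℕ} (M : ℕ) (f : Fin v → MvPolynomial (Fin v) R) :
    ((Fin v → Fin M) → MvPolynomial (Fin v) R) →ₗ[R] MvPolynomial (Fin v) R :=
  ∑ a : Fin v → Fin M, (LinearMap.mulRight R (∏ i, MvPolynomial.X i ^ (a i : ℕ))) ∘ₗ
    (MvPolynomial.aeval f).toLinearMap ∘ₗ LinearMap.proj a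

theorem T_apply {R : Type} [CommRing R] {v : ℕ} (M : ℕ) (f : Fin v → MvPolynomial (Fin v) R)
    (H : (Fin v → Fin M) → MvPolynomial (Fin v) R) :
    T M f H = ∑ a : Fin v → Fin M, MvPolynomial.aeval f (H a) *
      ∏ i, MvPolynomial.X i ^ (a i : ℕ) := by
  simp [T]

section
variable {R : Type} [CommRing R] {v M : ℕ} {f : Fin v → MvPolynomial (Fin v) R}

/-- Polynomials whose coefficients lie in the power of the ideal of the origin. -/
def Good (n : ℕ) (G : MvPolynomial (Fin v) R) : Prop :=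
  ∃ H : (Fin v → Fin M) → MvPolynomial (Fin v) R, T M f H = G ∧ ∀ a, H a ∈ mm R v ^ n

theorem good_add {n : ℕ} {G G' : MvPolynomial (Fin v) R} (h : Good (M := M) (f := f) n G)
    (h' : Good (M := M) (f := f) n G') : Good (M := M) (f := f) n (G + G') := by
  obtain ⟨H, rfl, hH⟩ := h
  obtain ⟨H', rfl, hH'⟩ := h'
  exact ⟨H + H', map_add _ _ _, fun a => Ideal.add_mem _ (hH a) (hH' a)⟩

theorem good_mul (hs : ∀ G : MvPolynomial (Fin v) R, ∃ H, T M f H = G) {n : ℕ}
    {G : MvPolynomial (Fin v) R} (c : MvPolynomial (Fin v) R) (h : Good (M := M) (f := f) n G) :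
    Good (M := M) (f := f) n (c * G) := by
  obtain ⟨H, rfl, hH⟩ := h
  choose K hK using fun a : Fin v → Fin M => hs (c * ∏ i, MvPolynomial.X i ^ (a i : ℕ))
  refine ⟨fun b => ∑ a, H a * K a b, ?_, fun b => Ideal.sum_mem _ fun a _ =>
    Ideal.mul_mem_right _ _ (hH a)⟩
  rw [T_apply, T_apply, Finset.mul_sum]
  calc _ = ∑ b : Fin v → Fin M, ∑ a : Fin v → Fin M, MvPolynomial.aeval f (H a) *
        (MvPolynomial.aeval f (K a b) * ∏ i, MvPolynomial.X i ^ (b i : ℕ)) := by
        refine Finset.sum_congr rfl fun b _ => ?_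
        rw [map_sum, Finset.sum_mul]
        refine Finset.sum_congr rfl fun a _ => ?_
        rw [map_mul]; ring
    _ = _ := by
        rw [Finset.sum_comm]
        refine Finset.sum_congr rfl fun a _ => ?_
        rw [← Finset.mul_sum, ← T_apply, hK a]; ring

theorem good_of_mem (hs : ∀ G : MvPolynomial (Fin v) R, ∃ H, T M f H = G) (n : ℕ) :
    ∀ G ∈ qq f ^ n, Good (M := M) (f := f) n G := by
  induction n with
  | zero =>
    intro G _
    obtain ⟨H, hH⟩ := hs G
    exact ⟨H, hH, fun a => by simp⟩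
  | succ n ih =>
    intro G hG
    rw [pow_succ'] at hG
    refine Submodule.mul_induction_on hG (fun r hr s hsn => ?_) fun x y hx hy => good_add hx hy
    refine Submodule.span_induction (p := fun r _ => Good (M := M) (f := f) (n + 1) (r * s))
      ?_ ?_ ?_ ?_ hr
    · rintro _ ⟨i, rfl⟩
      obtain ⟨H, rfl, hH⟩ := ih s hsn
      refine ⟨fun a => MvPolynomial.X i * H a, ?_, fun a => ?_⟩
      · rw [T_apply, T_apply, Finset.mul_sum]
        refine Finset.sum_congr rfl fun a _ => ?_
        rw [map_mul, MvPolynomial.aeval_X]; ring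
      · rw [pow_succ']
        exact Ideal.mul_mem_mul (Ideal.subset_span ⟨i, rfl⟩) (hH a)
    · rw [zero_mul]
      exact ⟨0, map_zero _, fun a => Ideal.zero_mem _⟩
    · intro x y _ _ hx hy
      rw [add_mul]
      exact good_add hx hy
    · intro c x _ hx
      rw [smul_eq_mul, mul_assoc]
      exact good_mul hs c hx

theorem mem_iff (hs : ∀ G : MvPolynomial (Fin v) R, ∃! H, G = T M f H) (n : ℕ)
    (H : (Fin v → Fin M) → MvPolynomial (Fin v) R) :
    T M f H ∈ qq f ^ n ↔ ∀ a, H a ∈ mm R v ^ n := by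
  constructor
  · intro h
    obtain ⟨H', h1, h2⟩ := good_of_mem (fun G => (hs G).exists.imp fun _ h => h.symm) n _ h
    rwa [(hs (T M f H)).unique h1.symm rfl] at h2
  · intro h
    rw [T_apply]
    refine Ideal.sum_mem _ fun a _ => Ideal.mul_mem_right _ _ ?_
    have h1 : (mm R v).map (MvPolynomial.aeval f : MvPolynomial (Fin v) R →ₐ[R] _) ≤ qq f := by
      rw [Ideal.map_span, Ideal.span_le]
      rintro _ ⟨_, ⟨i, rfl⟩, rfl⟩
      simpa using Ideal.subset_span (Set.mem_range_self (f := f) i)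
    have h2 := Ideal.mem_map_of_mem (MvPolynomial.aeval f : MvPolynomial (Fin v) R →ₐ[R] _) (h a)
    rw [Ideal.map_pow] at h2
    exact Ideal.pow_right_mono h1 n h2

end

/-! ### Dimension -/

/-- The exponents of degree less than `n`. -/
def Dn (v n : ℕ) : Finset (Fin v →₀ ℕ) :=
  (Finset.range n).biUnion fun j => (Finset.univ : Finset (Fin v)).finsuppAntidiag j

theorem mem_Dn {v n : ℕ} (x : Fin v →₀ ℕ) : x ∈ Dn v n ↔ x.degree < n := by
  simp [Dn, Finsupp.degree_eq_sum]

theorem card_Dn {v n : ℕ} (hn : 1 ≤ n) : (Dn v n).card = cn n v := by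
  classical
  rw [Dn, Finset.card_biUnion]
  · obtain ⟨n, rfl⟩ : ∃ m, n = m + 1 := ⟨n - 1, by omega⟩
    simp only [Finset.card_finsuppAntidiag_nat_eq_multichoose, Finset.card_univ, Fintype.card_fin]
    rw [Nat.sum_range_multichoose]
    congr 1
    omega
  · intro i _ j _ hij
    rw [Function.onFun, Finset.disjoint_left]
    intro x hx hx'
    simp at hx hx'
    exact hij (hx.symm.trans hx')

section
variable (k : Type) [Field k] (v n : ℕ)

/-- Low coefficients. -/
noncomputable def lo : MvPolynomial (Fin v) k →ₗ[k] (Dn v n → k) :=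
  LinearMap.pi fun d => MvPolynomial.lcoeff k d.1

theorem lo_ker : LinearMap.ker (lo k v n) = (mm k v ^ n).restrictScalars k := by
  ext p
  rw [LinearMap.mem_ker, Submodule.restrictScalars_mem, MvPolynomial.mem_pow_idealOfVars_iff']
  constructor
  · intro h x hx
    exact congrFun h ⟨x, (mem_Dn x).2 hx⟩
  · intro h
    funext d
    exact h d.1 ((mem_Dn d.1).1 d.2)

theorem lo_surj : Function.Surjective (lo k v n) := by
  classical
  intro g
  refine ⟨∑ d : Dn v n, MvPolynomial.monomial d.1 (g d), ?_⟩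
  funext e
  change MvPolynomial.coeff e.1 (∑ d : Dn v n, MvPolynomial.monomial d.1 (g d)) = g e
  rw [MvPolynomial.coeff_sum, Finset.sum_eq_single e]
  · rw [MvPolynomial.coeff_monomial, if_pos rfl]
  · intro d _ hd
    rw [MvPolynomial.coeff_monomial, if_neg fun h => hd (Subtype.ext h)]
  · intro h
    exact absurd (Finset.mem_univ e) h

/-- The quotient by a power of the ideal of the origin. -/
noncomputable def loE : (MvPolynomial (Fin v) k ⧸ (mm k v ^ n)) ≃ₗ[k] (Dn v n → k) :=
  (Submodule.quotEquivOfEq _ _ (lo_ker k v n).symm).trans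
    ((lo k v n).quotKerEquivOfSurjective (lo_surj k v n))

variable {k v n} {M : ℕ} {f : Fin v → MvPolynomial (Fin v) k}

/-- The low coefficients of all components. -/
noncomputable def los (k : Type) [Field k] (v n M : ℕ) :
    ((Fin v → Fin M) → MvPolynomial (Fin v) k) →ₗ[k] ((Fin v → Fin M) → (Dn v n → k)) :=
  LinearMap.pi fun a => (lo k v n) ∘ₗ LinearMap.proj a

theorem los_surj : Function.Surjective (los k v n M) := by
  intro g
  choose H hH using fun a => lo_surj k v n (g a)
  exact ⟨H, funext hH⟩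

/-- The expansion modulo the power of the ideal. -/
noncomputable def Tq (n M : ℕ) (f : Fin v → MvPolynomial (Fin v) k) :
    ((Fin v → Fin M) → MvPolynomial (Fin v) k) →ₗ[k] (MvPolynomial (Fin v) k ⧸ qq f ^ n) :=
  (Ideal.Quotient.mkₐ k (qq f ^ n)).toLinearMap ∘ₗ T M f

theorem ker_eq (hs : ∀ G : MvPolynomial (Fin v) k, ∃! H, G = T M f H) :
    LinearMap.ker (Tq n M f) = LinearMap.ker (los k v n M) := by
  ext H
  rw [LinearMap.mem_ker, LinearMap.mem_ker]
  have h1 : Tq n M f H = 0 ↔ T M f H ∈ qq f ^ n := Ideal.Quotient.eq_zero_iff_mem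
  have h2 : los k v n M H = 0 ↔ ∀ a, H a ∈ mm k v ^ n := by
    rw [funext_iff]
    refine forall_congr' fun a => ?_
    have h3 := SetLike.ext_iff.1 (lo_ker k v n) (H a)
    rwa [LinearMap.mem_ker, Submodule.restrictScalars_mem] at h3
  rw [h1, h2, mem_iff hs]

theorem Tq_surj (hs : ∀ G : MvPolynomial (Fin v) k, ∃! H, G = T M f H) :
    Function.Surjective (Tq n M f) := by
  intro x
  obtain ⟨G, rfl⟩ := Ideal.Quotient.mk_surjective x
  obtain ⟨H, hH, -⟩ := hs G
  exact ⟨H, by rw [hH]; rfl⟩

/-- The quotient by the power of the ideal of a monic map. -/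
noncomputable def qE (hs : ∀ G : MvPolynomial (Fin v) k, ∃! H, G = T M f H) :
    (MvPolynomial (Fin v) k ⧸ qq f ^ n) ≃ₗ[k] ((Fin v → Fin M) → (Dn v n → k)) :=
  (((Tq n M f).quotKerEquivOfSurjective (Tq_surj hs)).symm.trans
    (Submodule.quotEquivOfEq _ _ (ker_eq hs))).trans
      ((los k v n M).quotKerEquivOfSurjective los_surj)

end

theorem qp (hB : S_BAS) : S_QP := by
  have hs : ∀ (R : Type) [CommRing R] (v M : ℕ) (f : Fin v → MvPolynomial (Fin v) R), Mo M f →
      ∀ G : MvPolynomial (Fin v) R, ∃! H, G = T M f H := by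
    intro R _ v M f hf G
    simpa only [T_apply] using hB R v M f hf G
  refine ⟨fun R _ v M n f hf H => ?_, fun k _ v M n f hf hn => ?_⟩
  · rw [← T_apply]
    exact mem_iff (hs R v M f hf) n H
  · have e := qE (n := n) (hs k v M f hf)
    refine ⟨Module.Finite.equiv e.symm, ?_⟩
    rw [dg, e.finrank_eq, Module.finrank_pi_fintype]
    simp only [Module.finrank_fintype_fun_eq_card, Finset.sum_const, Finset.card_univ,
      Fintype.card_coe, card_Dn hn, Fintype.card_pi, Fintype.card_fin, Finset.prod_const,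
      smul_eq_mul]
    ring

end Pool.Agent.Y537.EM.QP
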